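import Mathlib
import Pool.Agent.H60.Four

namespace Pool.Agent.Results.MP_c46995_nt.Shift

open Pool.Agent.H60.PAry

/-- For `s ≥ 3`, exactly the same powers of `4` divide `S_{4, 2^s m + 2^{s-1}}(n)` and
`S_{4, 2^{s-1}}(n)`. -/
theorem result : ∀ s m n : ℕ, 3 ≤ s → ∀ e : ℕ,
    4 ^ e ∣ S 4 (2 ^ s * m + 2 ^ (s - 1)) (3 * (2 ^ s * m + 2 ^ (s - 1))) n ↔
      4 ^ e ∣ S 4 (2 ^ (s - 1)) (3 * 2 ^ (s - 1)) n := by
  intro s m n hs e
  rcases Nat.eq_zero_or_pos n with rfl | hn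
  · rw [S_zero, S_zero]
  obtain ⟨s, rfl⟩ := Nat.exists_eq_add_of_le' hs
  have h1 := val_S4 s m n hn
  have h2 := val_S4 s 0 n hn
  rw [mul_zero, zero_add, one_mul] at h2
  have e1 : 2 ^ (s + 3) * m + 2 ^ (s + 3 - 1) = (2 * m + 1) * 2 ^ (s + 2) := by
    rw [show s + 3 - 1 = s + 2 from rfl]; ring
  rw [e1, show s + 3 - 1 = s + 2 from rfl, show 4 ^ e = 2 ^ (2 * e) by rw [pow_mul]; rfl,
    padicValNat_dvd_iff_le (fun h => by rw [h, padicValNat.zero] at h1; omega),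
    padicValNat_dvd_iff_le (fun h => by rw [h, padicValNat.zero] at h2; omega), h1, h2]

end Pool.Agent.Results.MP_c46995_nt.Shift
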